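import Pool.Agent.Helper82.SP.GoalsB

/-!
# Packet SP-EXT: analytic functions on the rotation group
-/

set_option autoImplicit false

namespace Pool.Agent.Helper96.SP

open Matrix Real Filter Topology
open Pool.Agent.Helper26.LU (V M3 SO3 nrm sph proj Bm Rot crossM)
open Pool.Agent.Helper71.Tet (Mq nq nq_eq_zero)
open Pool.Agent.Helper82.SP

theorem an_coord (i : Fin 4) (q : Fin 4 → ℝ) : AnalyticAt ℝ (fun q : Fin 4 → ℝ => q i) q :=
  (ContinuousLinearMap.proj (R := ℝ) (φ := fun _ : Fin 4 => ℝ) i).analyticAt q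

theorem an_nq (q : Fin 4 → ℝ) : AnalyticAt ℝ nq q := by
  have h : nq = fun q : Fin 4 → ℝ => q 0 ^ 2 + q 1 ^ 2 + q 2 ^ 2 + q 3 ^ 2 := rfl
  rw [h]
  have h0 := an_coord 0 q
  have h1 := an_coord 1 q
  have h2 := an_coord 2 q
  have h3 := an_coord 3 q
  exact (((h0.pow 2).add (h1.pow 2)).add (h2.pow 2)).add (h3.pow 2)

theorem an_Mq (q : Fin 4 → ℝ) (a b : Fin 3) : AnalyticAt ℝ (fun q : Fin 4 → ℝ => Mq q a b) q := by
  have s := fun i => (an_coord i q).pow 2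
  have m := fun i j => (an_coord i q).mul (an_coord j q)
  have c : AnalyticAt ℝ (fun _ : Fin 4 → ℝ => (2 : ℝ)) q := analyticAt_const
  fin_cases a <;> fin_cases b
  · exact (((s 0).add (s 1)).sub (s 2)).sub (s 3)
  · exact c.mul ((m 1 2).sub (m 0 3))
  · exact c.mul ((m 1 3).add (m 0 2))
  · exact c.mul ((m 1 2).add (m 0 3))
  · exact (((s 0).sub (s 1)).add (s 2)).sub (s 3)
  · exact c.mul ((m 2 3).sub (m 0 1))
  · exact c.mul ((m 1 3).sub (m 0 2))
  · exact c.mul ((m 2 3).add (m 0 1))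
  · exact (((s 0).sub (s 1)).sub (s 2)).add (s 3)

theorem goalEXT (hB2 : G_B2) : G_EXT := by
  intro F v U hF hU hne hz R hR
  obtain ⟨R0, hR0U, hR0⟩ := hne
  obtain ⟨q0, hq0, hM0⟩ := hB2.2 R0 hR0
  obtain ⟨q1, hq1, hM1⟩ := hB2.2 R hR
  have hnq0 : nq 0 = 0 := by simp [nq]
  have hne0 : ∀ q : Fin 4 → ℝ, q ≠ 0 → nq q ≠ 0 := fun q hq h => hq (nq_eq_zero h)
  have han : AnalyticOnNhd ℝ
      (fun q : Fin 4 → ℝ => F (fun i => (nq q)⁻¹ • (Mq q *ᵥ v i))) ({0}ᶜ : Set (Fin 4 → ℝ)) := by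
    intro q hq
    have hq' : nq q ≠ 0 := hne0 q hq
    have hin : AnalyticAt ℝ (fun q : Fin 4 → ℝ => (fun i => (nq q)⁻¹ • (Mq q *ᵥ v i))) q := by
      rw [analyticAt_pi_iff]
      intro i
      rw [analyticAt_pi_iff]
      intro a
      have h1 : (fun q : Fin 4 → ℝ => ((nq q)⁻¹ • (Mq q *ᵥ v i)) a) =
          fun q : Fin 4 → ℝ => (nq q)⁻¹ * (Mq q a 0 * v i 0 + Mq q a 1 * v i 1 + Mq q a 2 * v i 2) := by
        funext q
        simp [Matrix.mulVec, dotProduct, Fin.sum_univ_three]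
      rw [h1]
      exact ((an_nq q).inv hq').mul
        ((((an_Mq q a 0).mul analyticAt_const).add ((an_Mq q a 1).mul analyticAt_const)).add
          ((an_Mq q a 2).mul analyticAt_const))
    exact (hF _ (Set.mem_univ _)).comp hin
  have hpre : IsPreconnected ({0}ᶜ : Set (Fin 4 → ℝ)) := by
    apply (isConnected_compl_singleton_of_one_lt_rank _ _).isPreconnected
    rw [rank_fun']
    simp
  have hq0ne : q0 ≠ 0 := by
    rintro rfl
    rw [hnq0] at hq0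
    exact zero_ne_one hq0
  have hq1ne : q1 ≠ 0 := by
    rintro rfl
    rw [hnq0] at hq1
    exact zero_ne_one hq1
  have hcont : ContinuousAt (fun q : Fin 4 → ℝ => (nq q)⁻¹ • Mq q) q0 := by
    refine continuousAt_pi.2 (fun a => continuousAt_pi.2 (fun b => ?_))
    exact (((an_nq q0).inv (hne0 q0 hq0ne)).mul (an_Mq q0 a b)).continuousAt
  have hev : (fun q : Fin 4 → ℝ => F (fun i => (nq q)⁻¹ • (Mq q *ᵥ v i))) =ᶠ[𝓝 q0] 0 := by
    have h1 : ∀ᶠ q in 𝓝 q0, (nq q)⁻¹ • Mq q ∈ U := by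
      apply hcont
      have h0 : (nq q0)⁻¹ • Mq q0 = R0 := by rw [hq0, hM0, inv_one, one_smul]
      show U ∈ 𝓝 ((nq q0)⁻¹ • Mq q0)
      rw [h0]
      exact hU.mem_nhds hR0U
    have h2 : ∀ᶠ q in 𝓝 q0, q ≠ 0 := isOpen_ne.mem_nhds hq0ne
    filter_upwards [h1, h2] with q hqU hqne
    have h3 := hz _ hqU (hB2.1 q (hne0 q hqne))
    simp only [Matrix.smul_mulVec] at h3
    exact h3
  have hres := han.eqOn_zero_of_preconnected_of_eventuallyEq_zero hpre hq0ne hev hq1ne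
  simp only [hq1, hM1, inv_one, one_smul] at hres
  exact hres

end Pool.Agent.Helper96.SP
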